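import Pool.Agent.TH744.LR.Markov

/-!
# Multilinear coefficients of a Boolean function and disjoint sensitive blocks
-/

set_option autoImplicit false
set_option linter.unusedSectionVars false

namespace Pool.Agent.TH744.LR

open Polynomial Finset

variable {ι : Type} [DecidableEq ι]

/-- the real value of a bit -/
noncomputable def bv (b : Bool) : ℝ := if b then 1 else 0

theorem bv_mem (b : Bool) : bv b ∈ Set.Icc (0 : ℝ) 1 := by
  unfold bv; split_ifs <;> simp

/-- `c` is the vector of coefficients of the real multilinear polynomial of `g` -/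
def Rep (g : Finset ι → Bool) (c : Finset ι → ℝ) : Prop :=
  ∀ T, bv (g T) = ∑ S ∈ T.powerset, c S

theorem Rep.empty {g : Finset ι → Bool} {c : Finset ι → ℝ} (h : Rep g c) : c ∅ = bv (g ∅) := by
  rw [h ∅]; simp

theorem Rep.nonconst {g : Finset ι → Bool} {c : Finset ι → ℝ} (h : Rep g c) {M : Finset ι}
    (hM : c M ≠ 0) (hne : M.Nonempty) : ∃ B ⊆ M, g B ≠ g ∅ := by
  by_contra hcon
  push Not at hcon
  have key : ∀ S : Finset ι, S ⊆ M → S.Nonempty → c S = 0 := by
    intro S
    induction S using Finset.strongInduction with
    | H S ih =>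
      intro hS hSne
      have h1 := h S
      rw [← Finset.add_sum_erase _ _ (Finset.mem_powerset.2 (subset_refl S)),
        Finset.sum_eq_single ∅, h.empty, hcon S hS] at h1
      · linarith
      · intro U hU hUne
        rw [Finset.mem_erase, Finset.mem_powerset] at hU
        exact ih U (Finset.ssubset_iff_subset_ne.2 ⟨hU.2, hU.1⟩) (hU.2.trans hS)
          (Finset.nonempty_iff_ne_empty.2 hUne)
      · intro hh
        exfalso
        apply hh
        rw [Finset.mem_erase, Finset.mem_powerset]
        exact ⟨fun hc => (Finset.nonempty_iff_ne_empty.1 hSne) hc.symm, Finset.empty_subset _⟩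
  exact hM (key M (subset_refl M) hne)

section block

variable {κ : Type} [DecidableEq κ]

/-- weights of the product measure -/
theorem wsum (s H : Finset κ) (hH : H ⊆ s) (p : ℝ) :
    ∑ J ∈ s.powerset.filter (fun J => H ⊆ J), p ^ J.card * (1 - p) ^ (s.card - J.card) =
      p ^ H.card := by
  have h1 : ∑ K ∈ (s \ H).powerset, p ^ K.card * (1 - p) ^ ((s \ H).card - K.card) = 1 := by
    rw [Finset.sum_pow_mul_eq_add_pow]
    simp
  calc ∑ J ∈ s.powerset.filter (fun J => H ⊆ J), p ^ J.card * (1 - p) ^ (s.card - J.card)
      = ∑ K ∈ (s \ H).powerset, p ^ H.card * (p ^ K.card * (1 - p) ^ ((s \ H).card - K.card)) := by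
        refine Finset.sum_nbij' (fun J => J \ H) (fun K => K ∪ H) ?_ ?_ ?_ ?_ ?_
        · intro J hJ
          rw [Finset.mem_filter, Finset.mem_powerset] at hJ
          rw [Finset.mem_powerset]
          exact Finset.sdiff_subset_sdiff hJ.1 (subset_refl _)
        · intro K hK
          rw [Finset.mem_powerset] at hK
          rw [Finset.mem_filter, Finset.mem_powerset]
          exact ⟨Finset.union_subset (hK.trans Finset.sdiff_subset) hH, Finset.subset_union_right⟩
        · intro J hJ
          rw [Finset.mem_filter, Finset.mem_powerset] at hJ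
          exact Finset.sdiff_union_of_subset hJ.2
        · intro K hK
          rw [Finset.mem_powerset] at hK
          rw [Finset.union_sdiff_right]
          refine Finset.sdiff_eq_self_of_disjoint ?_
          rw [Finset.disjoint_left]
          intro a ha hb
          exact (Finset.mem_sdiff.1 (hK ha)).2 hb
        · intro J hJ
          rw [Finset.mem_filter, Finset.mem_powerset] at hJ
          have e1 : (J \ H).card = J.card - H.card := Finset.card_sdiff_of_subset hJ.2
          have e2 : (s \ H).card = s.card - H.card := Finset.card_sdiff_of_subset hH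
          have e3 := Finset.card_le_card hJ.2
          have e4 := Finset.card_le_card hJ.1
          rw [e1, e2, ← mul_assoc, ← pow_add]
          congr 2 <;> omega
    _ = p ^ H.card := by rw [← Finset.mul_sum, h1, mul_one]

/-- the blocks met by `S` -/
def hits (s : Finset κ) (B : κ → Finset ι) (S : Finset ι) : Finset κ :=
  s.filter (fun j => ¬ Disjoint (B j) S)

theorem hits_subset (s : Finset κ) (B : κ → Finset ι) (S : Finset ι) : hits s B S ⊆ s :=
  Finset.filter_subset _ _

theorem hits_card_le {s : Finset κ} {B : κ → Finset ι}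
    (hd : ∀ i ∈ s, ∀ j ∈ s, i ≠ j → Disjoint (B i) (B j)) (S : Finset ι) :
    (hits s B S).card ≤ S.card := by
  calc (hits s B S).card = ∑ j ∈ hits s B S, 1 := by simp
    _ ≤ ∑ j ∈ hits s B S, (B j ∩ S).card := by
        refine Finset.sum_le_sum fun j hj => ?_
        rw [hits, Finset.mem_filter, Finset.disjoint_iff_inter_eq_empty] at hj
        exact Finset.card_pos.2 (Finset.nonempty_iff_ne_empty.2 hj.2)
    _ = ((hits s B S).biUnion (fun j => B j ∩ S)).card := by
        rw [Finset.card_biUnion]
        intro i hi j hj hij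
        exact Disjoint.mono Finset.inter_subset_left Finset.inter_subset_left
          (hd i (hits_subset _ _ _ hi) j (hits_subset _ _ _ hj) hij)
    _ ≤ S.card := by
        refine Finset.card_le_card ?_
        rw [Finset.biUnion_subset]
        intro j _
        exact Finset.inter_subset_right

theorem subset_iff_hits {s : Finset κ} {B : κ → Finset ι}
    (hd : ∀ i ∈ s, ∀ j ∈ s, i ≠ j → Disjoint (B i) (B j)) {J : Finset κ} (hJ : J ⊆ s)
    (S : Finset ι) : S ⊆ J.biUnion B ↔ (S ⊆ s.biUnion B ∧ hits s B S ⊆ J) := by
  constructor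
  · intro h
    refine ⟨h.trans (Finset.biUnion_subset_biUnion_of_subset_left B hJ), ?_⟩
    intro j hj
    rw [hits, Finset.mem_filter, Finset.not_disjoint_iff] at hj
    obtain ⟨hjs, a, haj, haS⟩ := hj
    have h2 := h haS
    rw [Finset.mem_biUnion] at h2
    obtain ⟨i, hi, hai⟩ := h2
    by_cases hij : i = j
    · rwa [← hij]
    · exact absurd hai (Finset.disjoint_right.1 (hd i (hJ hi) j hjs hij) haj)
  · rintro ⟨h1, h2⟩ a ha
    have h3 := h1 ha
    rw [Finset.mem_biUnion] at h3 ⊢
    obtain ⟨j, hj, haj⟩ := h3
    refine ⟨j, h2 ?_, haj⟩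
    rw [hits, Finset.mem_filter, Finset.not_disjoint_iff]
    exact ⟨hj, a, haj, ha⟩

/-- the multilinear extension at the product measure of density `p` on the blocks -/
noncomputable def ext (s : Finset κ) (B : κ → Finset ι) (c : Finset ι → ℝ) : ℝ[X] :=
  ∑ S ∈ (s.biUnion B).powerset, C (c S) * X ^ (hits s B S).card

theorem ext_eval {g : Finset ι → Bool} {c : Finset ι → ℝ} (h : Rep g c) {s : Finset κ}
    {B : κ → Finset ι} (hd : ∀ i ∈ s, ∀ j ∈ s, i ≠ j → Disjoint (B i) (B j)) (p : ℝ) :
    (ext s B c).eval p =
      ∑ J ∈ s.powerset, p ^ J.card * (1 - p) ^ (s.card - J.card) * bv (g (J.biUnion B)) := by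
  have h1 : ∀ J ∈ s.powerset, p ^ J.card * (1 - p) ^ (s.card - J.card) * bv (g (J.biUnion B)) =
      ∑ S ∈ (s.biUnion B).powerset, if hits s B S ⊆ J then
        c S * (p ^ J.card * (1 - p) ^ (s.card - J.card)) else 0 := by
    intro J hJ
    rw [Finset.mem_powerset] at hJ
    rw [h, ← Finset.sum_filter, Finset.mul_sum]
    have e : (J.biUnion B).powerset = (s.biUnion B).powerset.filter (fun S => hits s B S ⊆ J) := by
      ext S
      rw [Finset.mem_filter, Finset.mem_powerset, Finset.mem_powerset, subset_iff_hits hd hJ]
    rw [e]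
    exact Finset.sum_congr rfl fun S _ => by ring
  rw [Finset.sum_congr rfl h1, Finset.sum_comm, ext, eval_finsetSum]
  refine Finset.sum_congr rfl fun S _ => ?_
  rw [eval_mul, eval_C, eval_pow, eval_X, ← Finset.sum_filter, ← Finset.mul_sum,
    wsum s _ (hits_subset _ _ _)]

/-- at most `d²` disjoint sensitive blocks at `∅` for a function of degree at most `d` -/
theorem block_le {g : Finset ι → Bool} {c : Finset ι → ℝ} (h : Rep g c) {d : ℕ}
    (hdeg : ∀ S, c S ≠ 0 → S.card ≤ d) {s : Finset κ} {B : κ → Finset ι}
    (hd : ∀ i ∈ s, ∀ j ∈ s, i ≠ j → Disjoint (B i) (B j)) (hB : ∀ j ∈ s, g (B j) ≠ g ∅) :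
    s.card ≤ d ^ 2 := by
  have hq : (ext s B c).degree ≤ d := by
    rw [ext]
    refine le_trans (degree_sum_le _ _) ?_
    refine Finset.sup_le fun S _ => ?_
    by_cases hc : c S = 0
    · rw [hc]; simp
    · refine le_trans (degree_C_mul_X_pow_le _ _) ?_
      exact_mod_cast (hits_card_le hd S).trans (hdeg S hc)
  have hbd : ∀ x ∈ Set.Icc (0 : ℝ) 1, (ext s B c).eval x ∈ Set.Icc (0 : ℝ) 1 := by
    intro x hx
    rw [ext_eval h hd]
    have hw : ∀ J ∈ s.powerset, 0 ≤ x ^ J.card * (1 - x) ^ (s.card - J.card) := fun J _ =>
      mul_nonneg (pow_nonneg hx.1 _) (pow_nonneg (by linarith [hx.2]) _)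
    constructor
    · exact Finset.sum_nonneg fun J hJ => mul_nonneg (hw J hJ) (bv_mem _).1
    · have h1 := wsum s ∅ (Finset.empty_subset s) x
      have h2 : s.powerset.filter (fun J => ∅ ⊆ J) = s.powerset := by
        rw [Finset.filter_true_of_mem]; intro J _; exact Finset.empty_subset J
      rw [h2, Finset.card_empty, pow_zero] at h1
      refine le_trans (Finset.sum_le_sum fun J hJ => ?_) (le_of_eq h1)
      calc x ^ J.card * (1 - x) ^ (s.card - J.card) * bv (g (J.biUnion B)) ≤
          x ^ J.card * (1 - x) ^ (s.card - J.card) * 1 :=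
            mul_le_mul_of_nonneg_left (bv_mem _).2 (hw J hJ)
        _ = _ := mul_one _
  have hm := markov_zero hq hbd
  -- the derivative at 0
  have hder : (derivative (ext s B c)).eval 0 = ∑ j ∈ s, (bv (g (B j)) - bv (g ∅)) := by
    have h1 : (derivative (ext s B c)).eval 0 =
        ∑ S ∈ (s.biUnion B).powerset.filter (fun S => (hits s B S).card = 1), c S := by
      rw [ext, derivative_sum, eval_finsetSum, Finset.sum_filter]
      refine Finset.sum_congr rfl fun S _ => ?_
      rw [derivative_C_mul_X_pow, eval_mul, eval_C, eval_pow, eval_X]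
      rcases Nat.lt_trichotomy (hits s B S).card 1 with h0 | h0 | h0
      · have : (hits s B S).card = 0 := by omega
        rw [this]; simp
      · rw [h0]; simp
      · rw [if_neg (by omega), zero_pow (by omega), mul_zero]
    have h2 : (s.biUnion B).powerset.filter (fun S => (hits s B S).card = 1) =
        s.biUnion (fun j => (B j).powerset.erase ∅) := by
      ext S
      rw [Finset.mem_filter, Finset.mem_powerset, Finset.mem_biUnion, Finset.card_eq_one]
      constructor
      · rintro ⟨hS, j, hj⟩
        have hjs : j ∈ s := hits_subset s B S (by rw [hj]; exact Finset.mem_singleton_self j)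
        refine ⟨j, hjs, ?_⟩
        rw [Finset.mem_erase, Finset.mem_powerset]
        have hsub : S ⊆ ({j} : Finset κ).biUnion B := by
          rw [subset_iff_hits hd (Finset.singleton_subset_iff.2 hjs)]
          exact ⟨hS, by rw [hj]⟩
        rw [Finset.singleton_biUnion] at hsub
        refine ⟨?_, hsub⟩
        rintro rfl
        have : j ∈ hits s B ∅ := by rw [hj]; exact Finset.mem_singleton_self j
        rw [hits, Finset.mem_filter] at this
        exact this.2 (Finset.disjoint_empty_right _)
      · rintro ⟨j, hjs, hS⟩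
        rw [Finset.mem_erase, Finset.mem_powerset] at hS
        have h3 : S ⊆ ({j} : Finset κ).biUnion B := by rw [Finset.singleton_biUnion]; exact hS.2
        rw [subset_iff_hits hd (Finset.singleton_subset_iff.2 hjs)] at h3
        refine ⟨h3.1, j, ?_⟩
        refine Finset.Subset.antisymm h3.2 ?_
        rw [Finset.singleton_subset_iff, hits, Finset.mem_filter, Finset.not_disjoint_iff]
        obtain ⟨a, ha⟩ := Finset.nonempty_iff_ne_empty.2 hS.1
        exact ⟨hjs, a, hS.2 ha, ha⟩
    rw [h1, h2, Finset.sum_biUnion]
    · refine Finset.sum_congr rfl fun j _ => ?_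
      have h3 := h (B j)
      rw [← Finset.add_sum_erase _ _ (Finset.mem_powerset.2 (Finset.empty_subset (B j))),
        h.empty] at h3
      linarith
    · intro i hi j hj hij
      rw [Function.onFun, Finset.disjoint_left]
      intro S hSi hSj
      rw [Finset.mem_erase, Finset.mem_powerset] at hSi hSj
      obtain ⟨a, ha⟩ := Finset.nonempty_iff_ne_empty.2 hSi.1
      exact Finset.disjoint_left.1 (hd i hi j hj hij) (hSi.2 ha) (hSj.2 ha)
  have habs : |(derivative (ext s B c)).eval 0| = s.card := by
    rw [hder]
    cases hg : g ∅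
    · have : ∀ j ∈ s, bv (g (B j)) - bv false = 1 := by
        intro j hj
        have := hB j hj
        rw [hg] at this
        have h5 : g (B j) = true := by simpa using this
        rw [h5]; simp [bv]
      rw [Finset.sum_congr rfl this]
      simp
    · have : ∀ j ∈ s, bv (g (B j)) - bv true = -1 := by
        intro j hj
        have := hB j hj
        rw [hg] at this
        have h5 : g (B j) = false := by simpa using this
        rw [h5]; simp [bv]
      rw [Finset.sum_congr rfl this]
      simp
  rw [habs] at hm
  exact_mod_cast hm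

end block

end Pool.Agent.TH744.LR
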