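import Pool.Agent.TH744.LR.Block

/-!
# The rank of a block composition
-/

set_option autoImplicit false
set_option linter.unusedSectionVars false

namespace Pool.Agent.TH744.LR

open Finset Module

theorem exists_rows {X Y : Type} [Fintype X] [Fintype Y] (D : Matrix X Y ℝ) :
    ∃ (r : ℕ) (xs : Fin r → X), D.rank = r ∧ LinearIndependent ℝ (fun a => D (xs a)) := by
  obtain ⟨f, hf, _, hfi⟩ := Submodule.exists_fun_fin_finrank_span_eq ℝ (Set.range D.row)
  choose xs hxs using hf
  refine ⟨_, xs, Matrix.rank_eq_finrank_span_row D, ?_⟩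
  have : (fun a => D (xs a)) = f := funext fun a => hxs a
  rw [this]
  exact hfi

/-- a one-step lower bound: `M(z,w) = A(x,y) N1(z,w) + N0(z,w)` -/
theorem rank_step {Z W X Y : Type} [Fintype Z] [Fintype W] [Fintype X] [Fintype Y]
    (M N1 N0 : Matrix Z W ℝ) (A : Matrix X Y ℝ) (x0 : X)
    (updZ : Z → X → Z) (pY : W → Y) (updW : W → Y → W)
    (h1 : ∀ z x w, M (updZ z x) w = A x (pY w) * N1 z w + N0 z w)
    (h2 : ∀ z w y, N1 z (updW w y) = N1 z w) (h3 : ∀ w y, pY (updW w y) = y) :
    (Matrix.of (fun x y => A x y - A x0 y)).rank * N1.rank ≤ M.rank := by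
  classical
  set D : Matrix X Y ℝ := Matrix.of (fun x y => A x y - A x0 y) with hD
  have hDe : ∀ x y, D x y = A x y - A x0 y := fun _ _ => rfl
  obtain ⟨r, xs, hr, hxs⟩ := exists_rows D
  obtain ⟨t, us, ht, hus⟩ := exists_rows N1
  set P : Matrix (Fin r × Fin t) Z ℝ := Matrix.of (fun p z =>
    (if z = updZ (us p.2) (xs p.1) then (1 : ℝ) else 0) -
      (if z = updZ (us p.2) x0 then (1 : ℝ) else 0)) with hP
  have hPM : ∀ p w, (P * M) p w = D (xs p.1) (pY w) * N1 (us p.2) w := by
    intro p w
    rw [Matrix.mul_apply]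
    have : ∀ z, P p z * M z w = (if z = updZ (us p.2) (xs p.1) then M z w else 0) -
        (if z = updZ (us p.2) x0 then M z w else 0) := by
      intro z
      rw [hP, Matrix.of_apply, sub_mul, ite_mul, ite_mul, one_mul, zero_mul]
    rw [Finset.sum_congr rfl (fun z _ => this z), Finset.sum_sub_distrib, Finset.sum_ite_eq',
      Finset.sum_ite_eq', if_pos (Finset.mem_univ _), if_pos (Finset.mem_univ _), h1, h1, hDe]
    ring
  have hli : LinearIndependent ℝ (P * M).row := by
    rw [Fintype.linearIndependent_iff]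
    intro l hl
    have hl' : ∀ w, ∑ p, l p * (D (xs p.1) (pY w) * N1 (us p.2) w) = 0 := by
      intro w
      have := congrFun hl w
      rw [Finset.sum_apply] at this
      simp only [Pi.smul_apply, Matrix.row_apply, smul_eq_mul, Pi.zero_apply, hPM] at this
      exact this
    -- fix `w`, vary the `Y`-coordinate
    have hk : ∀ w a, ∑ k, l (a, k) * N1 (us k) w = 0 := by
      intro w
      rw [Fintype.linearIndependent_iff] at hxs
      refine hxs (fun a => ∑ k, l (a, k) * N1 (us k) w) ?_
      funext y
      rw [Finset.sum_apply, Pi.zero_apply]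
      have h4 := hl' (updW w y)
      rw [Fintype.sum_prod_type] at h4
      rw [← h4]
      refine Finset.sum_congr rfl fun a _ => ?_
      rw [Pi.smul_apply, smul_eq_mul, Finset.sum_mul]
      refine Finset.sum_congr rfl fun k _ => ?_
      rw [h3, h2]
      ring
    intro p
    obtain ⟨a, k⟩ := p
    rw [Fintype.linearIndependent_iff] at hus
    refine hus (fun k => l (a, k)) ?_ k
    funext w
    rw [Finset.sum_apply, Pi.zero_apply, ← hk w a]
    refine Finset.sum_congr rfl fun k _ => ?_
    rw [Pi.smul_apply, smul_eq_mul]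
  have h5 := LinearIndependent.rank_matrix hli
  rw [hr, ht]
  calc r * t = (P * M).rank := by rw [h5]; simp
    _ ≤ M.rank := Matrix.rank_mul_le_right P M

theorem rank_add_le {m n : Type} [Fintype m] [Fintype n] (A B : Matrix m n ℝ) :
    (A + B).rank ≤ A.rank + B.rank := by
  classical
  have h : LinearMap.range (A + B).mulVecLin ≤
      LinearMap.range A.mulVecLin ⊔ LinearMap.range B.mulVecLin := by
    rintro _ ⟨v, rfl⟩
    rw [Matrix.mulVecLin_add, LinearMap.add_apply]
    exact Submodule.add_mem_sup ⟨v, rfl⟩ ⟨v, rfl⟩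
  calc (A + B).rank ≤ finrank ℝ
        ↥(LinearMap.range A.mulVecLin ⊔ LinearMap.range B.mulVecLin) := Submodule.finrank_mono h
    _ ≤ A.rank + B.rank := Submodule.finrank_add_le_finrank_add_finrank _ _

/-- the `0/1` matrix of a Boolean function -/
noncomputable def cm {X Y : Type} (f : X → Y → Bool) : Matrix X Y ℝ :=
  Matrix.of (fun x y => bv (f x y))

/-- row differences -/
noncomputable def dRow {X Y : Type} (f : X → Y → Bool) (x0 : X) : Matrix X Y ℝ :=
  Matrix.of (fun x y => cm f x y - cm f x0 y)

theorem cm_rank_le {X Y : Type} [Fintype X] [Fintype Y] (f : X → Y → Bool) (x0 : X) :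
    (cm f).rank ≤ (dRow f x0).rank + 1 := by
  have e : cm f = dRow f x0 + Matrix.vecMulVec (fun _ => (1 : ℝ)) (fun y => cm f x0 y) := by
    ext x y
    simp [dRow, Matrix.vecMulVec_apply]
  calc (cm f).rank = (dRow f x0 + Matrix.vecMulVec (fun _ => (1 : ℝ)) (fun y => cm f x0 y)).rank := by
        rw [← e]
    _ ≤ (dRow f x0).rank + (Matrix.vecMulVec (fun _ : X => (1 : ℝ)) (fun y => cm f x0 y)).rank :=
        rank_add_le _ _
    _ ≤ (dRow f x0).rank + 1 := by
        have := Matrix.rank_vecMulVec_le (fun _ : X => (1 : ℝ)) (fun y => cm f x0 y)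
        omega

theorem bv_inj {a b : Bool} (h : bv a = bv b) : a = b := by
  cases a <;> cases b <;> simp [bv] at h ⊢

/-- three distinct rows: affine rank at least 2 -/
theorem two_le_dRow {X Y : Type} [Fintype X] [Fintype Y] (f : X → Y → Bool) (x1 x2 x3 : X)
    (h12 : f x1 ≠ f x2) (h13 : f x1 ≠ f x3) (h23 : f x2 ≠ f x3) : 2 ≤ (dRow f x1).rank := by
  classical
  have hli : LinearIndependent ℝ ![dRow f x1 x2, dRow f x1 x3] := by
    rw [LinearIndependent.pair_iff]
    intro s t hst
    have hy : ∀ y, s * (bv (f x2 y) - bv (f x1 y)) + t * (bv (f x3 y) - bv (f x1 y)) = 0 := by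
      intro y
      have := congrFun hst y
      simpa [dRow, cm] using this
    -- a coordinate where rows 2 and 3 differ
    obtain ⟨y, hy23⟩ := Function.ne_iff.1 h23
    have h1 := hy y
    -- exactly one of the rows 2, 3 agrees with row 1 at y
    by_cases h12y : f x1 y = f x2 y
    · -- then t = 0
      have h13y : f x1 y ≠ f x3 y := fun h => hy23 (h12y.symm.trans h)
      have ht : t = 0 := by
        rw [h12y, sub_self, mul_zero, zero_add] at h1
        rcases mul_eq_zero.1 h1 with h | h
        · exact h
        · exfalso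
          exact hy23 (bv_inj (by linarith))
      obtain ⟨y', hy'⟩ := Function.ne_iff.1 h12
      have h2 := hy y'
      rw [ht, zero_mul, add_zero] at h2
      refine ⟨?_, ht⟩
      rcases mul_eq_zero.1 h2 with h | h
      · exact h
      · exact absurd (bv_inj (by linarith)) hy'
    · have h13y : f x1 y = f x3 y := by
        cases h5 : f x1 y <;> cases h6 : f x2 y <;> cases h7 : f x3 y <;> simp_all
      have hs : s = 0 := by
        rw [h13y, sub_self, mul_zero, add_zero] at h1
        rcases mul_eq_zero.1 h1 with h | h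
        · exact h
        · exfalso
          exact hy23 (bv_inj (by linarith))
      obtain ⟨y', hy'⟩ := Function.ne_iff.1 h13
      have h2 := hy y'
      rw [hs, zero_mul, zero_add] at h2
      refine ⟨hs, ?_⟩
      rcases mul_eq_zero.1 h2 with h | h
      · exact h
      · exact absurd (bv_inj (by linarith)) hy'
  have h1 : (Matrix.of ![dRow f x1 x2, dRow f x1 x3]).rank = 2 := by
    have := LinearIndependent.rank_matrix (M := Matrix.of ![dRow f x1 x2, dRow f x1 x3]) hli
    simpa using this
  have h2 : Matrix.of ![dRow f x1 x2, dRow f x1 x3] = (dRow f x1).submatrix ![x2, x3] id := by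
    ext i j
    fin_cases i <;> rfl
  rw [← h1, h2]
  exact Matrix.rank_submatrix_le _ _ _

/-- at least three distinct rows -/
def Rows3 {X Y : Type} (f : X → Y → Bool) : Prop :=
  ∃ x1 x2 x3, f x1 ≠ f x2 ∧ f x1 ≠ f x3 ∧ f x2 ≠ f x3

/-- the quantity used in the induction: the rank of the row differences or of the column
differences -/
def Good {X Y : Type} [Fintype X] [Fintype Y] (f : X → Y → Bool) (r : ℕ) : Prop :=
  (∃ x0, r = (dRow f x0).rank) ∨ (∃ y0, r = (dRow (fun y x => f x y) y0).rank)

theorem cm_transpose {X Y : Type} (f : X → Y → Bool) :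
    (cm f).transpose = cm (fun y x => f x y) := rfl

theorem exists_good {X Y : Type} [Fintype X] [Fintype Y] (f : X → Y → Bool)
    (h : Rows3 f ∨ Rows3 (fun y x => f x y)) :
    ∃ r, Good f r ∧ 2 ≤ r ∧ (cm f).rank ≤ r + 1 := by
  rcases h with ⟨x1, x2, x3, h12, h13, h23⟩ | ⟨y1, y2, y3, h12, h13, h23⟩
  · exact ⟨_, Or.inl ⟨x1, rfl⟩, two_le_dRow f x1 x2 x3 h12 h13 h23, cm_rank_le f x1⟩
  · refine ⟨_, Or.inr ⟨y1, rfl⟩, two_le_dRow _ y1 y2 y3 h12 h13 h23, ?_⟩
    have := cm_rank_le (fun y x => f x y) y1
    rwa [← cm_transpose, Matrix.rank_transpose] at this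

section prod

variable {ι : Type} [DecidableEq ι] [Fintype ι] {X Y : ι → Type} [∀ i, Fintype (X i)]
  [∀ i, Fintype (Y i)]

/-- the multilinear combination over subsets of `S` -/
noncomputable def prodM (f : ∀ i, X i → Y i → Bool) (c : Finset ι → ℝ) (S : Finset ι) :
    Matrix (∀ i, X i) (∀ i, Y i) ℝ :=
  Matrix.of (fun x y => ∑ T ∈ S.powerset, c T * ∏ i ∈ T, bv (f i (x i) (y i)))

theorem prodM_upd (f : ∀ i, X i → Y i → Bool) (c : Finset ι → ℝ) {S : Finset ι} {i : ι}
    (hi : i ∉ S) (z : ∀ i, X i) (a : X i) (w : ∀ i, Y i) :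
    prodM f c S (Function.update z i a) w = prodM f c S z w := by
  simp only [prodM, Matrix.of_apply]
  refine Finset.sum_congr rfl fun T hT => ?_
  congr 1
  refine Finset.prod_congr rfl fun j hj => ?_
  have : j ≠ i := fun h => hi (Finset.mem_powerset.1 hT (h ▸ hj))
  rw [Function.update_of_ne this]

theorem prodM_updY (f : ∀ i, X i → Y i → Bool) (c : Finset ι → ℝ) {S : Finset ι} {i : ι}
    (hi : i ∉ S) (z : ∀ i, X i) (w : ∀ i, Y i) (b : Y i) :
    prodM f c S z (Function.update w i b) = prodM f c S z w := by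
  simp only [prodM, Matrix.of_apply]
  refine Finset.sum_congr rfl fun T hT => ?_
  congr 1
  refine Finset.prod_congr rfl fun j hj => ?_
  have : j ≠ i := fun h => hi (Finset.mem_powerset.1 hT (h ▸ hj))
  rw [Function.update_of_ne this]

theorem prodM_insert (f : ∀ i, X i → Y i → Bool) (c : Finset ι → ℝ) {S : Finset ι} {i : ι}
    (hi : i ∉ S) (z : ∀ i, X i) (w : ∀ i, Y i) :
    prodM f c (insert i S) z w = cm (f i) (z i) (w i) * prodM f (fun T => c (insert i T)) S z w +
      prodM f c S z w := by
  simp only [prodM, Matrix.of_apply, cm]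
  rw [Finset.sum_powerset_insert hi, add_comm, Finset.mul_sum]
  congr 1
  refine Finset.sum_congr rfl fun T hT => ?_
  rw [Finset.prod_insert (fun h => hi (Finset.mem_powerset.1 hT h))]
  ring

theorem prod_le_rank [Nonempty (∀ i, X i)] [Nonempty (∀ i, Y i)] (f : ∀ i, X i → Y i → Bool)
    (r : ι → ℕ) (hr : ∀ i, Good (f i) (r i)) (S : Finset ι) :
    ∀ c : Finset ι → ℝ, c S ≠ 0 → ∏ i ∈ S, r i ≤ (prodM f c S).rank := by
  induction S using Finset.induction_on with
  | empty =>
    intro c hc
    rw [Finset.prod_empty]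
    by_contra hlt
    have h0 : (prodM f c ∅).rank = 0 := by omega
    have h2 : (prodM f c ∅).mulVecLin = 0 := by
      rw [Matrix.rank, finrank_eq_zero_iff_of_free] at h0
      have h2 : LinearMap.range (prodM f c ∅).mulVecLin = ⊥ := by
        rw [← Submodule.subsingleton_iff_eq_bot]
        exact h0
      rwa [LinearMap.range_eq_bot] at h2
    obtain ⟨x⟩ := ‹Nonempty (∀ i, X i)›
    obtain ⟨y⟩ := ‹Nonempty (∀ i, Y i)›
    classical
    have h3 : (prodM f c ∅).mulVecLin (Pi.single y 1) = 0 := by rw [h2]; rfl
    rw [Matrix.mulVecLin_apply, Matrix.mulVec_single_one] at h3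
    have h4 := congrFun h3 x
    simp [prodM] at h4
    exact hc h4
  | insert i S hi ih =>
    intro c hc
    rw [Finset.prod_insert hi]
    have h1 := ih (fun T => c (insert i T)) hc
    rcases hr i with ⟨x0, hx0⟩ | ⟨y0, hy0⟩
    · have h2 := rank_step (prodM f c (insert i S)) (prodM f (fun T => c (insert i T)) S)
        (prodM f c S) (cm (f i)) x0 (fun z a => Function.update z i a) (fun w => w i)
        (fun w b => Function.update w i b)
        (fun z a w => by
          rw [prodM_insert f c hi, prodM_upd f _ hi, prodM_upd f _ hi, Function.update_self])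
        (fun z w b => prodM_updY f _ hi z w b) (fun w b => Function.update_self i b w)
      calc r i * ∏ i ∈ S, r i ≤ r i * (prodM f (fun T => c (insert i T)) S).rank :=
            Nat.mul_le_mul_left _ h1
        _ ≤ _ := by rw [hx0]; exact h2
    · have h2 := rank_step (prodM f c (insert i S)).transpose
        (prodM f (fun T => c (insert i T)) S).transpose
        (prodM f c S).transpose (cm (fun y x => f i x y)) y0 (fun w b => Function.update w i b)
        (fun z => z i) (fun z a => Function.update z i a)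
        (fun w b z => by
          rw [Matrix.transpose_apply, Matrix.transpose_apply, Matrix.transpose_apply,
            prodM_insert f c hi, prodM_updY f _ hi, prodM_updY f _ hi, Function.update_self]
          rfl)
        (fun w z a => by
          rw [Matrix.transpose_apply, Matrix.transpose_apply]
          exact prodM_upd f _ hi z a w) (fun z a => Function.update_self i a z)
      rw [Matrix.rank_transpose, Matrix.rank_transpose] at h2
      calc r i * ∏ i ∈ S, r i ≤ r i * (prodM f (fun T => c (insert i T)) S).rank :=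
            Nat.mul_le_mul_left _ h1
        _ ≤ _ := by rw [hy0]; exact h2

end prod

end Pool.Agent.TH744.LR
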