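import Pool.Agent.TH744.LR.Tree
import Pool.Agent.TH744.LR.Rank

/-!
# Block compositions: main estimate
-/

set_option autoImplicit false
set_option linter.unusedSectionVars false

namespace Pool.Agent.TH744.LR

open Finset Module

/-- the multilinear coefficients of a Boolean function -/
noncomputable def coef {ι : Type} [DecidableEq ι] (g : Finset ι → Bool) : Finset ι → ℝ :=
  fun S => Finset.strongInduction (p := fun _ => ℝ)
    (fun S ih => bv (g S) - ∑ T ∈ S.ssubsets.attach, ih T.1 (Finset.mem_ssubsets.1 T.2)) S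

theorem coef_eq {ι : Type} [DecidableEq ι] (g : Finset ι → Bool) (S : Finset ι) :
    coef g S = bv (g S) - ∑ T ∈ S.ssubsets, coef g T := by
  rw [← Finset.sum_attach S.ssubsets (fun T => coef g T)]
  exact Finset.strongInduction_eq _ S

theorem coef_rep {ι : Type} [DecidableEq ι] (g : Finset ι → Bool) : Rep g (coef g) := by
  intro T
  have h1 : T.ssubsets = T.powerset.erase T := rfl
  rw [← Finset.add_sum_erase _ _ (Finset.mem_powerset.2 (subset_refl T)), coef_eq g T, h1]
  ring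

variable {ι : Type} [DecidableEq ι] [Fintype ι] {X Y : ι → Type} [∀ i, Fintype (X i)]
  [∀ i, Fintype (Y i)]

/-- the inner functions on the full input -/
def inner (f : ∀ i, X i → Y i → Bool) : ι → (∀ i, X i) → (∀ i, Y i) → Bool :=
  fun i x y => f i (x i) (y i)

/-- the multilinear matrices are submatrices of the communication matrix -/
theorem prodM_rank_le (f : ∀ i, X i → Y i → Bool) {g : Finset ι → Bool} {c : Finset ι → ℝ}
    (h : Rep g c) (hz : ∀ i, ∃ a b, f i a b = false) (S : Finset ι) :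
    (prodM f c S).rank ≤ (cm (comp g (inner f))).rank := by
  choose a b hab using hz
  have e : prodM f c S = (cm (comp g (inner f))).submatrix
      (fun x i => if i ∈ S then x i else a i) (fun y i => if i ∈ S then y i else b i) := by
    ext x y
    rw [Matrix.submatrix_apply]
    simp only [prodM, cm, comp, Matrix.of_apply]
    rw [h]
    set U : Finset ι := univ.filter (fun i => inner f i (fun i => if i ∈ S then x i else a i)
      (fun i => if i ∈ S then y i else b i) = true) with hU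
    have hU2 : ∀ i, i ∈ U ↔ (i ∈ S ∧ f i (x i) (y i) = true) := by
      intro i
      rw [hU, Finset.mem_filter]
      simp only [Finset.mem_univ, true_and, inner]
      by_cases hi : i ∈ S
      · simp [hi]
      · simp [hi, hab]
    have hUS : U ⊆ S := fun i hi => ((hU2 i).1 hi).1
    have h1 : ∀ T ∈ S.powerset, c T * ∏ i ∈ T, bv (f i (x i) (y i)) =
        if T ⊆ U then c T else 0 := by
      intro T hT
      rw [Finset.mem_powerset] at hT
      by_cases hTU : T ⊆ U
      · rw [if_pos hTU, Finset.prod_eq_one, mul_one]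
        intro i hi
        rw [((hU2 i).1 (hTU hi)).2]
        rfl
      · rw [if_neg hTU]
        obtain ⟨i, hi, hiU⟩ := Finset.not_subset.1 hTU
        rw [Finset.prod_eq_zero hi, mul_zero]
        have : f i (x i) (y i) = false := by
          by_contra hne
          exact hiU ((hU2 i).2 ⟨hT hi, by simpa using hne⟩)
        rw [this]
        rfl
    rw [Finset.sum_congr rfl h1, ← Finset.sum_filter]
    refine Finset.sum_congr ?_ (fun _ _ => rfl)
    ext T
    rw [Finset.mem_filter, Finset.mem_powerset, Finset.mem_powerset]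
    exact ⟨fun h => h.2, fun h => ⟨h.trans hUS, h⟩⟩
  rw [e]
  exact Matrix.rank_submatrix_le _ _ _

theorem Rows3.exists_false {X Y : Type} {f : X → Y → Bool}
    (h : Rows3 f ∨ Rows3 (fun y x => f x y)) : ∃ a b, f a b = false := by
  by_contra hcon
  push Not at hcon
  have h1 : ∀ a b, f a b = true := fun a b => by simpa using hcon a b
  rcases h with ⟨x1, x2, _, h12, _, _⟩ | ⟨y1, y2, _, h12, _, _⟩
  · exact h12 (by funext y; rw [h1, h1])
  · exact h12 (by funext x; show f x y1 = f x y2; rw [h1, h1])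

theorem Rows3.nonempty {X Y : Type} {f : X → Y → Bool}
    (h : Rows3 f ∨ Rows3 (fun y x => f x y)) : Nonempty X ∧ Nonempty Y := by
  obtain ⟨a, b, _⟩ := Rows3.exists_false h
  exact ⟨⟨a⟩, ⟨b⟩⟩

/-- the logarithm of the rank -/
noncomputable def logRk {X Y : Type} [Fintype X] [Fintype Y] (F : X → Y → Bool) : ℝ :=
  Real.logb 2 ((cm F).rank : ℝ)

theorem logRk_nonneg {X Y : Type} [Fintype X] [Fintype Y] (F : X → Y → Bool) : 0 ≤ logRk F := by
  unfold logRk
  rcases Nat.eq_zero_or_pos (cm F).rank with h | h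
  · rw [h]; simp
  · exact Real.logb_nonneg (by norm_num) (by exact_mod_cast h)

theorem core (f : ∀ i, X i → Y i → Bool) (hnd : ∀ i, Rows3 (f i) ∨ Rows3 (fun y x => f i x y))
    (g : Finset ι → Bool) (q : ι → ℕ) (hq : ∀ i, Prot (f i) (q i)) :
    ∃ r : ι → ℕ, (∀ i, 2 ≤ r i ∧ (cm (f i)).rank ≤ r i + 1) ∧
      ∃ d Q : ℕ, Prot (comp g (inner f)) (d ^ 3 * Q) ∧ (d : ℝ) ≤ logRk (comp g (inner f)) ∧
        ∃ S : Finset ι, Q ≤ ∑ i ∈ S, q i ∧
          ∑ i ∈ S, Real.logb 2 (r i : ℝ) ≤ logRk (comp g (inner f)) := by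
  classical
  choose r hr using fun i => exists_good (f i) (hnd i)
  have : ∀ i, Nonempty (X i) := fun i => (Rows3.nonempty (hnd i)).1
  have : ∀ i, Nonempty (Y i) := fun i => (Rows3.nonempty (hnd i)).2
  refine ⟨r, fun i => ⟨(hr i).2.1, (hr i).2.2⟩, ?_⟩
  set c := coef g with hc
  have hrep : Rep g c := coef_rep g
  have hbd : ∀ S, c S ≠ 0 → ∑ i ∈ S, Real.logb 2 (r i : ℝ) ≤ logRk (comp g (inner f)) := by
    intro S hS
    have h1 := prod_le_rank f r (fun i => (hr i).1) S c hS
    have h2 := h1.trans (prodM_rank_le f hrep (fun i => Rows3.exists_false (hnd i)) S)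
    have hpos : ∀ i ∈ S, (r i : ℝ) ≠ 0 := fun i _ => by
      have := (hr i).2.1
      positivity
    rw [← Real.logb_prod _ _ hpos, logRk]
    refine Real.logb_le_logb_of_le (by norm_num) ?_ (by exact_mod_cast h2)
    exact Finset.prod_pos fun i _ => by
      have := (hr i).2.1
      positivity
  have hw : ∀ i, 1 ≤ Real.logb 2 (r i : ℝ) := fun i => by
    rw [Real.le_logb_iff_rpow_le (by norm_num) (by have := (hr i).2.1; positivity)]
    have := (hr i).2.1
    rw [Real.rpow_one]
    exact_mod_cast this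
  set supp : Finset (Finset ι) := univ.filter (fun S => c S ≠ 0) with hsupp
  have hm : ∀ S, c S ≠ 0 → S ∈ supp := fun S hS => by
    rw [hsupp, Finset.mem_filter]; exact ⟨Finset.mem_univ _, hS⟩
  have hq' : ∀ i, Prot (inner f i) (q i) := fun i =>
    (hq i).lift (fun x : (∀ i, X i) => x i) (fun y : (∀ i, Y i) => y i)
  have hmain := main_rec (φ := inner f) hq' (supp.sup (fun S => ∑ i ∈ S, q i))
    (supp.sup Finset.card) g c hrep (fun S hS => Finset.le_sup (hm S hS))
    (fun S hS => Finset.le_sup (f := fun S => ∑ i ∈ S, q i) (hm S hS))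
  refine ⟨_, _, hmain, ?_, ?_⟩
  · rcases supp.eq_empty_or_nonempty with h0 | h0
    · rw [h0]
      simpa using logRk_nonneg _
    · obtain ⟨S, hS, hSd⟩ := Finset.exists_mem_eq_sup supp h0 Finset.card
      rw [hSd]
      have hS2 : c S ≠ 0 := by
        rw [hsupp, Finset.mem_filter] at hS
        exact hS.2
      refine le_trans ?_ (hbd S hS2)
      calc (S.card : ℝ) = ∑ i ∈ S, (1 : ℝ) := by simp
        _ ≤ _ := Finset.sum_le_sum fun i _ => hw i
  · rcases supp.eq_empty_or_nonempty with h0 | h0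
    · refine ⟨∅, ?_, ?_⟩
      · rw [h0]; simp
      · simpa using logRk_nonneg _
    · obtain ⟨S, hS, hSd⟩ := Finset.exists_mem_eq_sup supp h0 (fun S => ∑ i ∈ S, q i)
      have hS2 : c S ≠ 0 := by
        rw [hsupp, Finset.mem_filter] at hS
        exact hS.2
      exact ⟨S, by rw [hSd], hbd S hS2⟩

theorem sum_pow_le {ι : Type} (S : Finset ι) (w : ι → ℝ) (hw : ∀ i ∈ S, 0 ≤ w i) {C : ℕ}
    (hC : 1 ≤ C) : ∑ i ∈ S, w i ^ C ≤ (∑ i ∈ S, w i) ^ C := by
  obtain ⟨D, rfl⟩ := Nat.exists_eq_add_of_le hC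
  calc ∑ i ∈ S, w i ^ (1 + D) = ∑ i ∈ S, w i * w i ^ D := by
        refine Finset.sum_congr rfl fun i _ => ?_
        rw [pow_add, pow_one]
    _ ≤ ∑ i ∈ S, w i * (∑ j ∈ S, w j) ^ D := by
        refine Finset.sum_le_sum fun i hi => mul_le_mul_of_nonneg_left ?_ (hw i hi)
        exact pow_le_pow_left₀ (hw i hi) (Finset.single_le_sum hw hi) D
    _ = _ := by rw [← Finset.sum_mul, pow_add, pow_one]

theorem main (f : ∀ i, X i → Y i → Bool) (hnd : ∀ i, Rows3 (f i) ∨ Rows3 (fun y x => f i x y))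
    (g : Finset ι → Bool) (K C : ℕ) (hC : 1 ≤ C)
    (hq : ∀ i, ∃ q : ℕ, Prot (f i) q ∧ (q : ℝ) ≤ K * (logRk (f i) + 1) ^ C) :
    ∃ q : ℕ, Prot (comp g (inner f)) q ∧
      (q : ℝ) ≤ K * 3 ^ C * (logRk (comp g (inner f))) ^ (C + 3) := by
  choose q hq1 hq2 using hq
  obtain ⟨r, hr, d, Q, hP, hd, S, hQ, hS⟩ := core f hnd g q hq1
  set L := logRk (comp g (inner f)) with hL
  have hL0 : 0 ≤ L := logRk_nonneg _
  have hw : ∀ i, 1 ≤ Real.logb 2 (r i : ℝ) := fun i => by
    rw [Real.le_logb_iff_rpow_le (by norm_num) (by have := (hr i).1; positivity)]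
    have := (hr i).1
    rw [Real.rpow_one]
    exact_mod_cast this
  refine ⟨_, hP, ?_⟩
  have hqi : ∀ i, (q i : ℝ) ≤ K * 3 ^ C * (Real.logb 2 (r i : ℝ)) ^ C := by
    intro i
    have h2 := (hr i).1
    have h3 : logRk (f i) ≤ Real.logb 2 (r i : ℝ) + 1 := by
      rw [logRk]
      rcases Nat.eq_zero_or_pos (cm (f i)).rank with h0 | h0
      · rw [h0]
        simp only [Nat.cast_zero, Real.logb_zero]
        linarith [hw i]
      · have h4 : ((cm (f i)).rank : ℝ) ≤ (r i : ℝ) * 2 := by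
          have h5 := (hr i).2
          have : ((cm (f i)).rank : ℝ) ≤ (r i : ℝ) + 1 := by exact_mod_cast h5
          have h6 : (2 : ℝ) ≤ r i := by exact_mod_cast h2
          linarith
        calc Real.logb 2 ((cm (f i)).rank : ℝ) ≤ Real.logb 2 ((r i : ℝ) * 2) :=
              Real.logb_le_logb_of_le (by norm_num) (by exact_mod_cast h0) h4
          _ = Real.logb 2 (r i : ℝ) + 1 := by
              rw [Real.logb_mul (by positivity) (by norm_num), Real.logb_self_eq_one (by norm_num)]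
    refine (hq2 i).trans ?_
    rw [mul_assoc, ← mul_pow]
    refine mul_le_mul_of_nonneg_left ?_ (by positivity)
    refine pow_le_pow_left₀ (by linarith [logRk_nonneg (f i)]) ?_ C
    linarith [hw i]
  have hQ2 : (Q : ℝ) ≤ K * 3 ^ C * L ^ C := by
    calc (Q : ℝ) ≤ ∑ i ∈ S, (q i : ℝ) := by exact_mod_cast hQ
      _ ≤ ∑ i ∈ S, K * 3 ^ C * (Real.logb 2 (r i : ℝ)) ^ C := Finset.sum_le_sum fun i _ => hqi i
      _ = K * 3 ^ C * ∑ i ∈ S, (Real.logb 2 (r i : ℝ)) ^ C := by rw [Finset.mul_sum]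
      _ ≤ K * 3 ^ C * (∑ i ∈ S, Real.logb 2 (r i : ℝ)) ^ C :=
          mul_le_mul_of_nonneg_left (sum_pow_le S _ (fun i _ => by linarith [hw i]) hC)
            (by positivity)
      _ ≤ K * 3 ^ C * L ^ C := mul_le_mul_of_nonneg_left
            (pow_le_pow_left₀ (Finset.sum_nonneg fun i _ => by linarith [hw i]) hS C)
            (by positivity)
  calc ((d ^ 3 * Q : ℕ) : ℝ) = (d : ℝ) ^ 3 * Q := by push_cast; ring
    _ ≤ L ^ 3 * (K * 3 ^ C * L ^ C) := mul_le_mul (pow_le_pow_left₀ (by positivity) hd 3) hQ2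
        (by positivity) (by positivity)
    _ = K * 3 ^ C * L ^ (C + 3) := by ring

theorem main_bounded (f : ∀ i, X i → Y i → Bool)
    (hnd : ∀ i, Rows3 (f i) ∨ Rows3 (fun y x => f i x y)) (g : Finset ι → Bool) (K : ℕ)
    (hq : ∀ i, Prot (f i) K) :
    ∃ q : ℕ, Prot (comp g (inner f)) q ∧ (q : ℝ) ≤ K * (logRk (comp g (inner f))) ^ 4 := by
  obtain ⟨r, hr, d, Q, hP, hd, S, hQ, hS⟩ := core f hnd g (fun _ => K) hq
  set L := logRk (comp g (inner f)) with hL
  have hL0 : 0 ≤ L := logRk_nonneg _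
  have hw : ∀ i, 1 ≤ Real.logb 2 (r i : ℝ) := fun i => by
    rw [Real.le_logb_iff_rpow_le (by norm_num) (by have := (hr i).1; positivity)]
    have := (hr i).1
    rw [Real.rpow_one]
    exact_mod_cast this
  refine ⟨_, hP, ?_⟩
  have hQ2 : (Q : ℝ) ≤ K * L := by
    calc (Q : ℝ) ≤ ∑ i ∈ S, (K : ℝ) := by exact_mod_cast hQ
      _ = K * ∑ i ∈ S, (1 : ℝ) := by rw [Finset.mul_sum]; simp
      _ ≤ K * ∑ i ∈ S, Real.logb 2 (r i : ℝ) :=
          mul_le_mul_of_nonneg_left (Finset.sum_le_sum fun i _ => hw i) (by positivity)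
      _ ≤ K * L := mul_le_mul_of_nonneg_left hS (by positivity)
  calc ((d ^ 3 * Q : ℕ) : ℝ) = (d : ℝ) ^ 3 * Q := by push_cast; ring
    _ ≤ L ^ 3 * (K * L) := mul_le_mul (pow_le_pow_left₀ (by positivity) hd 3) hQ2
        (by positivity) (by positivity)
    _ = K * L ^ 4 := by ring

end Pool.Agent.TH744.LR
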