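import Mathlib

/-!
# The endpoint Markov inequality on `[0,1]`
-/

set_option autoImplicit false

namespace Pool.Agent.TH744.LR

open Polynomial

theorem T_deriv_one (n : ℕ) : (derivative (Chebyshev.T ℝ n)).eval 1 = (n : ℝ) ^ 2 := by
  rw [Chebyshev.T_derivative_eq_U]
  simp [Chebyshev.U_eval_one]
  ring

/-- a polynomial of degree at most `d` with values in `[0,1]` on `[0,1]` satisfies
`|q'(0)| ≤ d²` -/
theorem markov_zero {d : ℕ} {q : ℝ[X]} (hd : q.degree ≤ d)
    (hb : ∀ x ∈ Set.Icc (0 : ℝ) 1, q.eval x ∈ Set.Icc (0 : ℝ) 1) :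
    |(derivative q).eval 0| ≤ (d : ℝ) ^ 2 := by
  have key : ∀ s : ℝ, |s| = 1 → s * (derivative q).eval 0 ≤ (d : ℝ) ^ 2 := by
    intro s hs
    set P : ℝ[X] := C (-s) * (C 2 * q.comp (C (1 / 2) * (1 - X)) - 1) with hP
    have h := Chebyshev.eval_iterate_derivative_le_of_forall_abs_le_one (n := d) (P := P)
      (k := 1) (x := 1) le_rfl ?_ ?_
    · simp only [Function.iterate_one] at h
      rw [T_deriv_one] at h
      refine le_trans (le_of_eq ?_) h
      rw [hP]
      simp [derivative_comp]
    · rw [hP]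
      have hn : q.natDegree ≤ d := natDegree_le_iff_degree_le.2 hd
      have h0 : (C (1 / 2 : ℝ) * (1 - X)).natDegree ≤ 1 := by
        refine le_trans (natDegree_C_mul_le _ _) ?_
        refine le_trans (natDegree_sub_le _ _) ?_
        simp
      have h1 : (q.comp (C (1 / 2) * (1 - X))).natDegree ≤ d := by
        refine le_trans natDegree_comp_le ?_
        calc q.natDegree * (C (1 / 2 : ℝ) * (1 - X)).natDegree ≤ d * 1 := Nat.mul_le_mul hn h0
          _ = d := by ring
      rw [← natDegree_le_iff_degree_le]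
      refine le_trans (natDegree_C_mul_le _ _) ?_
      refine le_trans (natDegree_sub_le _ _) ?_
      refine max_le (le_trans (natDegree_C_mul_le _ _) h1) ?_
      simp
    · intro x hx
      have h2 := hb (1 / 2 * (1 - x)) ⟨by nlinarith [hx.1, hx.2], by nlinarith [hx.1, hx.2]⟩
      rw [hP]
      simp only [eval_mul, eval_C, eval_sub, eval_comp, eval_one, eval_X]
      rw [abs_mul, abs_neg, hs, one_mul, abs_le]
      constructor <;> nlinarith [h2.1, h2.2]
  rcases abs_cases ((derivative q).eval 0) with ⟨h, _⟩ | ⟨h, _⟩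
  · rw [h]
    have := key 1 (by simp)
    linarith
  · rw [h]
    have := key (-1) (by simp)
    linarith

end Pool.Agent.TH744.LR
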