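import Mathlib

/-!
# Deterministic two-party protocols: composition
-/

set_option autoImplicit false

namespace Pool.Agent.TH744.LR

/-- one step of a protocol: append the bit sent by the owner of the transcript -/
def pstep {X Y : Type} (owner : List Bool → Bool) (a : List Bool → X → Bool)
    (b : List Bool → Y → Bool) (x : X) (y : Y) : List Bool → List Bool :=
  fun t : List Bool => t ++ [if owner t then a t x else b t y]

/-- `F` has a deterministic two-party protocol with `c` bits -/
def Prot {X Y : Type} (F : X → Y → Bool) (c : ℕ) : Prop :=
  ∃ (owner : List Bool → Bool) (a : List Bool → X → Bool)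
      (b : List Bool → Y → Bool) (out : List Bool → Bool),
      ∀ x y, out (Nat.iterate (pstep owner a b x y) c []) = F x y

theorem pstep_len {X Y : Type} (owner : List Bool → Bool) (a : List Bool → X → Bool)
    (b : List Bool → Y → Bool) (x : X) (y : Y) (n : ℕ) :
    (Nat.iterate (pstep owner a b x y) n []).length = n := by
  induction n with
  | zero => rfl
  | succ n ih =>
    rw [Function.iterate_succ_apply']
    simp [pstep, ih]

theorem Prot.const {X Y : Type} (v : Bool) : Prot (fun (_ : X) (_ : Y) => v) 0 :=
  ⟨fun _ => true, fun _ _ => true, fun _ _ => true, fun _ => v, fun _ _ => rfl⟩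

/-- run a protocol for `f`, then (knowing the value `v`) a protocol for `F v` -/
theorem Prot.bind {X Y : Type} {f : X → Y → Bool} {c : ℕ} (hf : Prot f c)
    {F : Bool → X → Y → Bool} {b : ℕ} (hF : ∀ v, Prot (F v) b) :
    Prot (fun x y => F (f x y) x y) (c + b) := by
  obtain ⟨ow, a, bb, out, h⟩ := hf
  choose ow2 a2 b2 out2 h2 using hF
  refine ⟨fun t => if t.length < c then ow t else ow2 (out (t.take c)) (t.drop c),
    fun t x => if t.length < c then a t x else a2 (out (t.take c)) (t.drop c) x,
    fun t y => if t.length < c then bb t y else b2 (out (t.take c)) (t.drop c) y,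
    fun t => out2 (out (t.take c)) (t.drop c), fun x y => ?_⟩
  set st := pstep (fun t => if t.length < c then ow t else ow2 (out (t.take c)) (t.drop c))
    (fun t x => if t.length < c then a t x else a2 (out (t.take c)) (t.drop c) x)
    (fun t y => if t.length < c then bb t y else b2 (out (t.take c)) (t.drop c) y) x y with hst
  have h1 : ∀ n ≤ c, Nat.iterate st n [] = Nat.iterate (pstep ow a bb x y) n [] := by
    intro n
    induction n with
    | zero => intro _; rfl
    | succ n ih =>
      intro hn
      rw [Function.iterate_succ_apply', Function.iterate_succ_apply', ih (by omega)]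
      have hl := pstep_len ow a bb x y n
      simp only [hst, pstep]
      have : (Nat.iterate (pstep ow a bb x y) n []).length < c := by rw [hl]; omega
      simp only [hst, pstep, this, if_true]
  have hc := h1 c le_rfl
  have hlc := pstep_len ow a bb x y c
  set T := Nat.iterate (pstep ow a bb x y) c [] with hT
  have hv : out T = f x y := h x y
  have h3 : ∀ n, Nat.iterate st (n + c) [] =
      T ++ Nat.iterate (pstep (ow2 (f x y)) (a2 (f x y)) (b2 (f x y)) x y) n [] := by
    intro n
    induction n with
    | zero => simp [hc]
    | succ n ih =>
      rw [show n + 1 + c = (n + c) + 1 by ring, Function.iterate_succ_apply',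
        Function.iterate_succ_apply', ih]
      set U := Nat.iterate (pstep (ow2 (f x y)) (a2 (f x y)) (b2 (f x y)) x y) n [] with hU
      have e1 : ¬ (T ++ U).length < c := by
        rw [List.length_append, hlc]; omega
      have e2 : (T ++ U).take c = T := by
        rw [List.take_append_of_le_length (by omega), List.take_of_length_le (by omega)]
      have e3 : (T ++ U).drop c = U := by
        rw [List.drop_append_of_le_length (by omega), List.drop_of_length_le (by omega),
          List.nil_append]
      simp only [hst, pstep, e1, if_false, e2, e3, hv]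
      rw [List.append_assoc]
  have h4 := h3 b
  rw [show c + b = b + c by ring, h4]
  set U := Nat.iterate (pstep (ow2 (f x y)) (a2 (f x y)) (b2 (f x y)) x y) b [] with hU
  have e2 : (T ++ U).take c = T := by
    rw [List.take_append_of_le_length (by omega), List.take_of_length_le (by omega)]
  have e3 : (T ++ U).drop c = U := by
    rw [List.drop_append_of_le_length (by omega), List.drop_of_length_le (by omega),
      List.nil_append]
  simp only [e2, e3, hv]
  exact h2 (f x y) x y

theorem Prot.mono {X Y : Type} {F : X → Y → Bool} {c c' : ℕ} (h : Prot F c) (hc : c ≤ c') :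
    Prot F c' := by
  obtain ⟨k, rfl⟩ := Nat.exists_eq_add_of_le hc
  have hk : ∀ v : Bool, Prot (fun (_ : X) (_ : Y) => v) k := fun v =>
    ⟨fun _ => true, fun _ _ => true, fun _ _ => true, fun _ => v, fun _ _ => rfl⟩
  exact Prot.bind h hk

theorem Prot.lift {X Y X' Y' : Type} {F : X → Y → Bool} {c : ℕ} (h : Prot F c)
    (p : X' → X) (q : Y' → Y) : Prot (fun x y => F (p x) (q y)) c := by
  obtain ⟨ow, a, b, out, h⟩ := h
  exact ⟨ow, fun t x => a t (p x), fun t y => b t (q y), out, fun x y => h (p x) (q y)⟩

/-- one bit of Alice -/
theorem Prot.alice {X Y : Type} (s : X → Bool) : Prot (fun (x : X) (_ : Y) => s x) 1 :=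
  ⟨fun _ => true, fun _ x => s x, fun _ _ => true, fun t => t.headD true, fun x y => by
    simp [pstep]⟩

/-- one bit of Bob -/
theorem Prot.bob {X Y : Type} (s : Y → Bool) : Prot (fun (_ : X) (y : Y) => s y) 1 :=
  ⟨fun _ => false, fun _ _ => true, fun _ y => s y, fun t => t.headD true, fun x y => by
    simp [pstep]⟩

/-- Alice announces `R` bits, then Bob answers -/
theorem Prot.code {X Y : Type} (R : ℕ) : ∀ (F : (Fin R → Bool) → Y → Bool) (e : X → Fin R → Bool),
    Prot (fun x y => F (e x) y) (R + 1) := by
  induction R with
  | zero =>
    intro F e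
    have : (fun (x : X) (y : Y) => F (e x) y) = fun (_ : X) (y : Y) => F (fun i => i.elim0) y := by
      funext x y
      congr 1
      funext i
      exact i.elim0
    rw [this]
    exact Prot.bob _
  | succ R ih =>
    intro F e
    have h := Prot.bind (Prot.alice (Y := Y) (fun x : X => e x 0))
      (F := fun v x y => F (Fin.cons v (fun i => e x i.succ)) y) (b := R + 1)
      (fun v => ih (fun w y => F (Fin.cons v w) y) (fun x i => e x i.succ))
    have e1 : (fun (x : X) (y : Y) => F (Fin.cons (e x 0) (fun i => e x i.succ)) y) =
        fun x y => F (e x) y := by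
      funext x y
      congr 1
      funext i
      refine Fin.cases ?_ (fun j => ?_) i <;> simp
    rw [e1] at h
    rwa [show 1 + (R + 1) = R + 1 + 1 by ring] at h

/-- the trivial protocol -/
theorem Prot.of_card {X Y : Type} [Fintype X] (F : X → Y → Bool) (R : ℕ)
    (h : Fintype.card X ≤ 2 ^ R) : Prot F (R + 1) := by
  classical
  by_cases hX : Nonempty X
  · have : Fintype.card X ≤ Fintype.card (Fin R → Bool) := by simpa using h
    obtain ⟨e⟩ := Function.Embedding.nonempty_of_card_le this
    have h2 := Prot.code R (fun w y => F (Function.invFun e w) y) (fun x => e x)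
    have e1 : (fun (x : X) (y : Y) => F (Function.invFun e (e x)) y) = F := by
      funext x y
      rw [Function.leftInverse_invFun e.injective]
    rwa [e1] at h2
  · have : F = fun (_ : X) (_ : Y) => true := by
      funext x
      exact absurd ⟨x⟩ hX
    rw [this]
    exact (Prot.const true).mono (by omega)

theorem Prot.swap {X Y : Type} {F : X → Y → Bool} {c : ℕ} (h : Prot F c) :
    Prot (fun y x => F x y) c := by
  obtain ⟨ow, a, b, out, h⟩ := h
  refine ⟨fun t => !ow t, b, a, out, fun y x => ?_⟩
  have : ∀ n, Nat.iterate (pstep (fun t => !ow t) b a y x) n [] =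
      Nat.iterate (pstep ow a b x y) n [] := by
    intro n
    induction n with
    | zero => rfl
    | succ n ih =>
      rw [Function.iterate_succ_apply', Function.iterate_succ_apply', ih]
      set T := Nat.iterate (pstep ow a b x y) n [] with hT
      simp only [pstep]
      by_cases hh : ow T = true <;> simp [hh]
  rw [this]
  exact h x y

end Pool.Agent.TH744.LR
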