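import Pool.Agent.TH744.LR.Block
import Pool.Agent.TH744.LR.Prot

/-!
# From small weighted degree to a protocol
-/

set_option autoImplicit false
set_option linter.unusedSectionVars false

namespace Pool.Agent.TH744.LR

open Finset

variable {ι : Type} [DecidableEq ι] [Fintype ι]

/-- the composed function -/
def comp {X Y : Type} (g : Finset ι → Bool) (φ : ι → X → Y → Bool) : X → Y → Bool :=
  fun x y => g (univ.filter (fun i => φ i x y = true))

/-- restriction: the variables in `V` get the values given by `A ⊆ V` -/
def res (g : Finset ι → Bool) (V A : Finset ι) : Finset ι → Bool := fun T => g ((T \ V) ∪ A)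

/-- coefficients of the restriction -/
noncomputable def resc (c : Finset ι → ℝ) (V A : Finset ι) : Finset ι → ℝ :=
  fun R => ∑ S ∈ univ.filter (fun S : Finset ι => S ∩ V ⊆ A ∧ S \ V = R), c S

theorem sub_iff {V A T S : Finset ι} (hA : A ⊆ V) :
    S ⊆ (T \ V) ∪ A ↔ (S ∩ V ⊆ A ∧ S \ V ⊆ T) := by
  constructor
  · intro h
    constructor
    · intro a ha
      rw [Finset.mem_inter] at ha
      have := h ha.1
      rw [Finset.mem_union, Finset.mem_sdiff] at this
      rcases this with h1 | h1
      · exact absurd ha.2 h1.2
      · exact h1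
    · intro a ha
      rw [Finset.mem_sdiff] at ha
      have := h ha.1
      rw [Finset.mem_union, Finset.mem_sdiff] at this
      rcases this with h1 | h1
      · exact h1.1
      · exact absurd (hA h1) ha.2
  · rintro ⟨h1, h2⟩ a ha
    rw [Finset.mem_union, Finset.mem_sdiff]
    by_cases hV : a ∈ V
    · exact Or.inr (h1 (Finset.mem_inter.2 ⟨ha, hV⟩))
    · exact Or.inl ⟨h2 (Finset.mem_sdiff.2 ⟨ha, hV⟩), hV⟩

theorem res_rep {g : Finset ι → Bool} {c : Finset ι → ℝ} (h : Rep g c) {V A : Finset ι}
    (hA : A ⊆ V) : Rep (res g V A) (resc c V A) := by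
  intro T
  rw [res, h]
  have e1 : ∀ R ∈ T.powerset, resc c V A R =
      ∑ S : Finset ι, if (S ∩ V ⊆ A ∧ S \ V = R) then c S else 0 := by
    intro R _
    rw [resc, Finset.sum_filter]
  rw [Finset.sum_congr rfl e1, Finset.sum_comm]
  have e2 : ∀ S : Finset ι, (∑ R ∈ T.powerset, if (S ∩ V ⊆ A ∧ S \ V = R) then c S else 0) =
      if S ⊆ (T \ V) ∪ A then c S else 0 := by
    intro S
    by_cases h1 : S ⊆ (T \ V) ∪ A
    · rw [if_pos h1]
      have h2 := (sub_iff hA).1 h1
      rw [Finset.sum_eq_single (S \ V)]
      · rw [if_pos ⟨h2.1, rfl⟩]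
      · intro R _ hR
        rw [if_neg]
        rintro ⟨_, h3⟩
        exact hR h3.symm
      · intro h3
        exact absurd (Finset.mem_powerset.2 h2.2) h3
    · rw [if_neg h1]
      refine Finset.sum_eq_zero fun R hR => ?_
      rw [if_neg]
      rintro ⟨h3, h4⟩
      apply h1
      rw [sub_iff hA]
      exact ⟨h3, by rw [h4]; exact Finset.mem_powerset.1 hR⟩
  rw [Finset.sum_congr rfl (fun S _ => e2 S), ← Finset.sum_filter]
  refine Finset.sum_congr ?_ (fun _ _ => rfl)
  ext S
  rw [Finset.mem_powerset, Finset.mem_filter]
  simp only [Finset.mem_univ, true_and]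

theorem resc_ne {c : Finset ι → ℝ} {V A R : Finset ι} (h : resc c V A R ≠ 0) :
    ∃ S, c S ≠ 0 ∧ S \ V = R := by
  by_contra hcon
  push Not at hcon
  apply h
  rw [resc]
  refine Finset.sum_eq_zero fun S hS => ?_
  rw [Finset.mem_filter] at hS
  by_contra h0
  exact hcon S h0 hS.2.2

section prot

variable {X Y : Type} {φ : ι → X → Y → Bool} {q : ι → ℕ}

theorem query (hφ : ∀ i, Prot (φ i) (q i)) {b : ℕ} (V : Finset ι) :
    ∀ g : Finset ι → Bool, (∀ A ⊆ V, Prot (comp (res g V A) φ) b) →
      Prot (comp g φ) (∑ i ∈ V, q i + b) := by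
  induction V using Finset.induction_on with
  | empty =>
    intro g h
    have h1 := h ∅ (subset_refl _)
    have e : res g ∅ ∅ = g := by
      funext T
      simp [res]
    rw [e] at h1
    simpa using h1
  | insert i V hi ih =>
    intro g h
    have h1 : ∀ v : Bool, Prot (comp (res g {i} (if v then {i} else ∅)) φ) (∑ j ∈ V, q j + b) := by
      intro v
      refine ih _ fun A hA => ?_
      have h2 := h (A ∪ (if v then {i} else ∅)) (by
        refine Finset.union_subset (hA.trans (Finset.subset_insert _ _)) ?_
        split_ifs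
        · exact Finset.singleton_subset_iff.2 (Finset.mem_insert_self _ _)
        · exact Finset.empty_subset _)
      have e : res (res g {i} (if v then {i} else ∅)) V A =
          res g (insert i V) (A ∪ (if v then {i} else ∅)) := by
        funext T
        simp only [res]
        congr 1
        have hiA : i ∉ A := fun hh => hi (hA hh)
        ext a
        simp only [Finset.mem_union, Finset.mem_sdiff, Finset.mem_singleton, Finset.mem_insert]
        constructor
        · rintro (⟨h3 | h3, h4⟩ | h3)
          · exact Or.inl ⟨h3.1, fun h5 => h5.elim h4 h3.2⟩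
          · exact Or.inr (Or.inl h3)
          · exact Or.inr (Or.inr h3)
        · rintro (⟨h3, h4⟩ | h3 | h3)
          · exact Or.inl ⟨Or.inl ⟨h3, fun h5 => h4 (Or.inr h5)⟩, fun h5 => h4 (Or.inl h5)⟩
          · exact Or.inl ⟨Or.inr h3, fun h5 => hiA (h5 ▸ h3)⟩
          · exact Or.inr h3
      rw [e]
      exact h2
    have h2 := Prot.bind (hφ i) (F := fun v => comp (res g {i} (if v then {i} else ∅)) φ) h1
    have e : (fun x y => comp (res g {i} (if φ i x y then {i} else ∅)) φ x y) = comp g φ := by
      funext x y
      simp only [comp, res]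
      congr 1
      ext a
      simp only [Finset.mem_union, Finset.mem_sdiff, Finset.mem_filter, Finset.mem_univ, true_and,
        Finset.mem_singleton]
      by_cases hφi : φ i x y = true
      · rw [if_pos hφi, Finset.mem_singleton]
        constructor
        · rintro (h3 | h3)
          · exact h3.1
          · rw [h3]; exact hφi
        · intro h3
          by_cases hai : a = i
          · exact Or.inr hai
          · exact Or.inl ⟨h3, hai⟩
      · rw [if_neg hφi]
        constructor
        · rintro (h3 | h3)
          · exact h3.1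
          · simp at h3
        · intro h3
          exact Or.inl ⟨h3, fun hai => hφi (hai ▸ h3)⟩
    have e2 : (fun x y => (fun v => comp (res g {i} (if v then {i} else ∅)) φ) (φ i x y) x y) =
        comp g φ := e
    rw [e2] at h2
    rw [Finset.sum_insert hi]
    rwa [add_assoc]

theorem main_rec (hφ : ∀ i, Prot (φ i) (q i)) (Q d : ℕ) :
    ∀ (g : Finset ι → Bool) (c : Finset ι → ℝ), Rep g c → (∀ S, c S ≠ 0 → S.card ≤ d) →
      (∀ S, c S ≠ 0 → ∑ i ∈ S, q i ≤ Q) → Prot (comp g φ) (d ^ 3 * Q) := by
  classical
  induction d with
  | zero =>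
    intro g c h hd _
    have hc : ∀ T, g T = g ∅ := by
      intro T
      have h1 := h T
      rw [Finset.sum_eq_single ∅, h.empty] at h1
      · unfold bv at h1
        cases h2 : g T <;> cases h3 : g ∅ <;> rw [h2, h3] at h1 <;> simp at h1 ⊢
      · intro S _ hS
        by_contra h0
        have := hd S h0
        exact hS (Finset.card_eq_zero.1 (by omega))
      · intro h0
        exact absurd (Finset.mem_powerset.2 (Finset.empty_subset T)) h0
    have e : comp g φ = fun (_ : X) (_ : Y) => g ∅ := by
      funext x y
      rw [comp, hc]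
    rw [e]
    exact (Prot.const _).mono (by omega)
  | succ d ih =>
    intro g c h hd hQ
    set P : Finset (Finset (Finset ι)) := (univ.filter (fun S : Finset ι => c S ≠ 0 ∧
      S.card = d + 1)).powerset.filter (fun M => ∀ i ∈ M, ∀ j ∈ M, i ≠ j → Disjoint i j) with hP
    have hPne : P.Nonempty := ⟨∅, by simp [hP]⟩
    obtain ⟨M, hMP, hmax⟩ := Finset.exists_max_image P Finset.card hPne
    have hM : M ⊆ univ.filter (fun S : Finset ι => c S ≠ 0 ∧ S.card = d + 1) ∧
        ∀ i ∈ M, ∀ j ∈ M, i ≠ j → Disjoint i j := by
      rw [hP, Finset.mem_filter, Finset.mem_powerset] at hMP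
      exact hMP
    have hM1 : ∀ S ∈ M, c S ≠ 0 ∧ S.card = d + 1 := fun S hS => by
      have := hM.1 hS
      rw [Finset.mem_filter] at this
      exact this.2
    set V := M.biUnion id with hV
    -- the number of blocks
    have hcard : M.card ≤ (d + 1) ^ 2 := by
      have hex : ∀ S, S ∈ M → ∃ B, B ⊆ S ∧ g B ≠ g ∅ := by
        intro S hS
        obtain ⟨B, hB, hg⟩ := h.nonconst (hM1 S hS).1 (by
          rw [← Finset.card_pos, (hM1 S hS).2]; omega)
        exact ⟨B, hB, hg⟩
      choose! B hB using hex
      refine block_le (κ := Finset ι) (s := M) (B := B) h hd ?_ ?_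
      · intro i hi j hj hij
        exact Disjoint.mono (hB i hi).1 (hB j hj).1 (hM.2 i hi j hj hij)
      · intro j hj
        exact (hB j hj).2
    have hsum : ∑ i ∈ V, q i ≤ (d + 1) ^ 2 * Q := by
      rw [hV, Finset.sum_biUnion]
      · calc ∑ S ∈ M, ∑ i ∈ id S, q i ≤ ∑ S ∈ M, Q :=
            Finset.sum_le_sum fun S hS => hQ S (hM1 S hS).1
          _ = M.card * Q := by simp
          _ ≤ (d + 1) ^ 2 * Q := Nat.mul_le_mul_right _ hcard
      · intro i hi j hj hij
        exact hM.2 i hi j hj hij
    have hres : ∀ A ⊆ V, Prot (comp (res g V A) φ) (d ^ 3 * Q) := by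
      intro A hA
      refine ih _ (resc c V A) (res_rep h hA) ?_ ?_
      · intro R hR
        obtain ⟨S, hS, hSR⟩ := resc_ne hR
        have h1 : R.card ≤ S.card := by
          rw [← hSR]; exact Finset.card_le_card Finset.sdiff_subset
        have h2 := hd S hS
        by_contra hlt
        have h3 : S.card = d + 1 := by omega
        have h4 : R = S := by
          rw [← hSR]
          refine Finset.eq_of_subset_of_card_le Finset.sdiff_subset ?_
          rw [hSR]; omega
        have h5 : Disjoint S V := by
          rw [← h4, ← hSR]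
          exact Finset.sdiff_disjoint
        have h6 : ∀ T ∈ M, Disjoint S T := fun T hT =>
          Disjoint.mono_right (by
            intro a ha
            rw [hV, Finset.mem_biUnion]
            exact ⟨T, hT, ha⟩) h5
        have h7 : S ∉ M := by
          intro hSM
          have := h6 S hSM
          rw [disjoint_self] at this
          have h8 : S = ∅ := this
          rw [h8, Finset.card_empty] at h3
          omega
        have h8 : insert S M ∈ P := by
          rw [hP, Finset.mem_filter, Finset.mem_powerset]
          refine ⟨?_, ?_⟩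
          · intro T hT
            rw [Finset.mem_insert] at hT
            rcases hT with rfl | hT
            · rw [Finset.mem_filter]
              exact ⟨Finset.mem_univ _, hS, h3⟩
            · exact hM.1 hT
          · intro i hi j hj hij
            rw [Finset.mem_insert] at hi hj
            rcases hi with rfl | hi <;> rcases hj with rfl | hj
            · exact absurd rfl hij
            · exact h6 j hj
            · exact (h6 i hi).symm
            · exact hM.2 i hi j hj hij
        have h9 := hmax _ h8
        rw [Finset.card_insert_of_notMem h7] at h9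
        omega
      · intro R hR
        obtain ⟨S, hS, hSR⟩ := resc_ne hR
        refine le_trans ?_ (hQ S hS)
        rw [← hSR]
        exact Finset.sum_le_sum_of_subset Finset.sdiff_subset
    refine (query hφ V g hres).mono ?_
    calc ∑ i ∈ V, q i + d ^ 3 * Q ≤ (d + 1) ^ 2 * Q + d ^ 3 * Q := by omega
      _ = ((d + 1) ^ 2 + d ^ 3) * Q := by ring
      _ ≤ (d + 1) ^ 3 * Q := Nat.mul_le_mul_right _ (by ring_nf; nlinarith [Nat.zero_le d])

end prot

end Pool.Agent.TH744.LR
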